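import Pool.Agent.UnivKoszul.Defs

namespace Pool.Agent.UnivKoszul

universe u

/-! ### Linear resolutions of cyclic modules, abstractly -/

section Cyc

variable {R : Type u} [CommRing R]

/-- A resolution of `R/I` by finite free modules with all matrix entries in the set `L`. -/
structure CycRes (L : Set R) (I : Ideal R) where
  κ : ℕ → Type
  fin : ∀ i, Fintype (κ i)
  uniq : Unique (κ 0)
  D : ∀ i, κ i → κ (i + 1) → R
  mem : ∀ i r c, D i r c ∈ L
  range0 : ∀ a : R, a ∈ I ↔ ∃ v : κ 1 → R, a = ∑ c, D 0 default c * v c
  exact : ∀ i (v : κ (i + 1) → R), (∀ r, ∑ c, D i r c * v c = 0) ↔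
    ∃ u : κ (i + 2) → R, ∀ r, v r = ∑ c, D (i + 1) r c * u c

attribute [instance] CycRes.fin CycRes.uniq

/-- zero ideal -/
def cycBot (L : Set R) : CycRes L (⊥ : Ideal R) where
  κ i := match i with
    | 0 => Unit
    | _ + 1 => Empty
  fin i := match i with
    | 0 => inferInstanceAs (Fintype Unit)
    | _ + 1 => inferInstanceAs (Fintype Empty)
  uniq := inferInstanceAs (Unique Unit)
  D _ _ c := Empty.elim c
  mem _ _ c := Empty.elim c
  range0 a := by
    constructor
    · intro h
      refine ⟨fun c => Empty.elim c, ?_⟩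
      rw [Ideal.mem_bot] at h
      rw [h]
      symm
      apply Finset.sum_eq_zero
      intro c _
      exact Empty.elim c
    · rintro ⟨v, h⟩
      rw [Ideal.mem_bot, h]
      apply Finset.sum_eq_zero
      intro c _
      exact Empty.elim c
  exact i v := by
    constructor
    · intro _
      exact ⟨fun c => Empty.elim c, fun r => Empty.elim r⟩
    · intro _ r
      apply Finset.sum_eq_zero
      intro c _
      exact Empty.elim c

/-- principal ideal with periodic annihilators -/
def cycPeriodic (L : Set R) {l l' : R} (hl : l ∈ L) (hl' : l' ∈ L)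
    (h1 : ∀ r, l * r = 0 ↔ ∃ s, r = l' * s) (h2 : ∀ r, l' * r = 0 ↔ ∃ s, r = l * s) :
    CycRes L (Ideal.span {l}) where
  κ _ := Unit
  fin _ := inferInstanceAs (Fintype Unit)
  uniq := inferInstanceAs (Unique Unit)
  D i _ _ := if Even i then l else l'
  mem i _ _ := by
    show (if Even i then l else l') ∈ L
    split_ifs
    · exact hl
    · exact hl'
  range0 a := by
    rw [Ideal.mem_span_singleton']
    constructor
    · rintro ⟨s, rfl⟩
      exact ⟨fun _ => s, by simp [mul_comm]⟩
    · rintro ⟨v, h⟩
      exact ⟨v (), by rw [h]; simp [mul_comm]⟩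
  exact i v := by
    have aux : ∀ w : Unit → R, ∀ a : R, (∑ c : Unit, a * w c) = a * w () := by
      intro w a; simp
    simp only [aux]
    rcases Nat.even_or_odd i with hi | hi
    · have hi' : ¬ Even (i + 1) := by
        rw [Nat.not_even_iff_odd]; exact hi.add_one
      simp only [hi, hi', if_true, if_false]
      constructor
      · intro h
        obtain ⟨s, hs⟩ := (h1 _).mp (h ())
        exact ⟨fun _ => s, fun r => by rw [← hs]⟩
      · rintro ⟨u, hu⟩ r
        exact (h1 _).mpr ⟨u (), hu ()⟩
    · have hi0 : ¬ Even i := by rw [Nat.not_even_iff_odd]; exact hi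
      have hi' : Even (i + 1) := hi.add_one
      simp only [hi0, hi', if_true, if_false]
      constructor
      · intro h
        obtain ⟨s, hs⟩ := (h2 _).mp (h ())
        exact ⟨fun _ => s, fun r => by rw [← hs]⟩
      · rintro ⟨u, hu⟩ r
        exact (h2 _).mpr ⟨u (), hu ()⟩

/-- solving the double complex -/
lemma double_solve {x y : R} (hx : ∀ r, x * r = 0 ↔ ∃ s, r = x * s) (hyy : y * y = 0)
    (hxy : ∀ r s, y * r = x * s → ∃ a b, r = x * a + y * b) (n : ℕ) :
    ∀ v : ℕ → R, (∀ a < n + 1, x * v (a + 1) + (-1) ^ a * y * v a = 0) →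
      ∃ u : ℕ → R, ∀ c ≤ n + 1, v c = x * u (c + 1) + (-1) ^ c * y * u c := by
  have step : ∀ (c : ℕ) (p q r s : R), p = x * q + (-1) ^ c * y * r →
      x * s + (-1) ^ c * y * p = 0 → ∃ t, s = x * t + (-1) ^ (c + 1) * y * q := by
    intro c p q r s hp h
    have h1 : x * (s + (-1) ^ c * y * q) = 0 := by
      rw [hp] at h
      have : (-1 : R) ^ c * (-1) ^ c = 1 := by
        rw [← mul_pow]; norm_num
      linear_combination h - r * hyy * ((-1 : R) ^ c * (-1) ^ c)
    obtain ⟨t, ht⟩ := (hx _).mp h1
    exact ⟨t, by rw [pow_succ]; linear_combination ht⟩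
  induction n with
  | zero =>
    intro v hv
    have h0 := hv 0 (by norm_num)
    have h0' : x * v 1 + y * v 0 = 0 := by simpa using h0
    obtain ⟨a, b, hab⟩ := hxy (v 0) (-(v 1)) (by linear_combination h0')
    obtain ⟨t, ht⟩ := step 0 (v 0) a b (v 1) (by simpa using hab) h0
    refine ⟨fun i => if i = 0 then b else if i = 1 then a else t, ?_⟩
    intro c hc
    have : c = 0 ∨ c = 1 := by omega
    rcases this with rfl | rfl
    · simpa using hab
    · simpa using ht
  | succ n ih =>
    intro v hv
    obtain ⟨u, hu⟩ := ih v (fun a ha => hv a (by omega))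
    obtain ⟨t, ht⟩ := step (n + 1) (v (n + 1)) (u (n + 2)) (u (n + 1)) (v (n + 2))
      (hu (n + 1) le_rfl) (hv (n + 1) (by omega))
    refine ⟨fun i => if i = n + 3 then t else u i, ?_⟩
    intro c hc
    rcases Nat.lt_or_ge c (n + 2) with h | h
    · have h1 : ¬ (c + 1 = n + 3) := by omega
      have h2 : ¬ (c = n + 3) := by omega
      simp only [h1, h2, if_false]
      exact hu c (by omega)
    · have h1 : c = n + 2 := by omega
      subst h1
      simp only [if_true]
      rw [if_neg (by omega)]
      exact ht

/-- matrix of the double complex -/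
def dbl (x y : R) (i : ℕ) (a : Fin (i + 1)) (c : Fin (i + 2)) : R :=
  if c.1 = a.1 + 1 then x else if c.1 = a.1 then (-1) ^ a.1 * y else 0

lemma dbl_sum (x y : R) (i : ℕ) (a : Fin (i + 1)) (v : Fin (i + 2) → R) :
    ∑ c, dbl x y i a c * v c = x * v a.succ + (-1) ^ a.1 * y * v a.castSucc := by
  rw [Finset.sum_eq_add_of_mem a.succ a.castSucc (Finset.mem_univ _) (Finset.mem_univ _)]
  · simp [dbl]
  · intro h
    have := congrArg Fin.val h
    simp at this
  · intro c _ hc
    have h1 : c.1 ≠ a.1 + 1 := fun h => hc.1 (Fin.ext (by simpa using h))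
    have h2 : c.1 ≠ a.1 := fun h => hc.2 (Fin.ext (by simpa using h))
    simp [dbl, h1, h2]

/-- the ideal `(x, y)` with `x^2 = y^2 = 0` -/
def cycDouble (L : Set R) {x y : R} (hxL : x ∈ L) (hyL : y ∈ L) (hyL' : -y ∈ L) (h0L : 0 ∈ L)
    (hx : ∀ r, x * r = 0 ↔ ∃ s, r = x * s) (hyy : y * y = 0)
    (hxy : ∀ r s, y * r = x * s → ∃ a b, r = x * a + y * b) :
    CycRes L (Ideal.span {x, y}) where
  κ i := Fin (i + 1)
  fin _ := inferInstance
  uniq := inferInstanceAs (Unique (Fin 1))
  D := dbl x y
  mem i a c := by
    unfold dbl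
    split_ifs
    · exact hxL
    · rcases neg_one_pow_eq_or R a.1 with h | h
      · rw [h, one_mul]; exact hyL
      · rw [h, neg_one_mul]; exact hyL'
    · exact h0L
  range0 a := by
    rw [Ideal.mem_span_pair]
    constructor
    · rintro ⟨s, t, rfl⟩
      refine ⟨![t, s], ?_⟩
      rw [dbl_sum]
      have e : (default : Fin 1) = 0 := rfl
      rw [e]
      simp
      ring
    · rintro ⟨v, h⟩
      rw [dbl_sum] at h
      refine ⟨v 1, v 0, ?_⟩
      rw [h]
      have e : (default : Fin 1) = 0 := rfl
      rw [e]
      simp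
      ring
  exact i v := by
    simp only [dbl_sum]
    constructor
    · intro h
      -- extend to a sequence
      let v' : ℕ → R := fun c => if hc : c < i + 2 then v ⟨c, hc⟩ else 0
      obtain ⟨u, hu⟩ := double_solve hx hyy hxy i v' (by
        intro a ha
        have h1 := h ⟨a, ha⟩
        have e1 : v' (a + 1) = v (Fin.succ ⟨a, ha⟩) := by
          simp only [v']
          rw [dif_pos (by omega)]
          rfl
        have e2 : v' a = v (Fin.castSucc ⟨a, ha⟩) := by
          simp only [v']
          rw [dif_pos (by omega)]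
          rfl
        rw [e1, e2]
        exact h1)
      refine ⟨fun c => u c.1, ?_⟩
      intro c
      have h2 := hu c.1 (by omega)
      have e3 : v' c.1 = v c := by
        simp only [v']
        rw [dif_pos c.2]
      rw [e3] at h2
      simpa using h2
    · rintro ⟨u, hu⟩ a
      rw [hu, hu]
      have hxx : x * x = 0 := (hx x).mpr ⟨1, by ring⟩
      have e1 : (Fin.succ (Fin.castSucc a)) = Fin.castSucc (Fin.succ a) := rfl
      simp only [Fin.val_succ, Fin.val_castSucc, e1]
      have : (-1 : R) ^ a.1 * (-1) ^ a.1 = 1 := by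
        rw [← mul_pow]; norm_num
      linear_combination hxx * u a.succ.succ + hyy * u a.castSucc.castSucc * ((-1 : R) ^ a.1 * (-1) ^ a.1)

/-- adding a regular element -/
noncomputable def cycCone (L : Set R) (h0L : (0 : R) ∈ L) {I : Ideal R} (F : CycRes L I) {z : R}
    (hz : z ∈ L) (hz' : -z ∈ L) (hreg : ∀ r, z * r ∈ I → r ∈ I) :
    CycRes L (I ⊔ Ideal.span {z}) where
  κ i := match i with
    | 0 => F.κ 0
    | j + 1 => F.κ (j + 1) ⊕ F.κ j
  fin i := match i with
    | 0 => F.fin 0
    | j + 1 => inferInstanceAs (Fintype (F.κ (j + 1) ⊕ F.κ j))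
  uniq := F.uniq
  D i := by
    classical
    exact match i with
    | 0 => fun r c => Sum.elim (fun c => F.D 0 r c) (fun _ => z) c
    | j + 1 => fun r c => Sum.elim
        (fun r => Sum.elim (fun c => F.D (j + 1) r c)
          (fun c => if r = c then (-1) ^ (j + 1) * z else 0) c)
        (fun r => Sum.elim (fun _ => 0) (fun c => F.D j r c) c) r
  mem i r c := by
    classical
    rcases i with _ | j
    · rcases c with c | c
      · exact F.mem 0 r c
      · exact hz
    · rcases r with r | r <;> rcases c with c | c
      · exact F.mem (j + 1) r c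
      · show (if r = c then (-1) ^ (j + 1) * z else 0) ∈ L
        split_ifs
        · rcases neg_one_pow_eq_or R (j + 1) with h | h
          · rw [h, one_mul]; exact hz
          · rw [h, neg_one_mul]; exact hz'
        · exact h0L
      · exact h0L
      · exact F.mem j r c
  range0 a := by
    classical
    show a ∈ I ⊔ Ideal.span {z} ↔ ∃ v : F.κ 1 ⊕ F.κ 0 → R, a = ∑ c : F.κ 1 ⊕ F.κ 0,
      Sum.elim (fun c => F.D 0 default c) (fun _ => z) c * v c
    simp only [Fintype.sum_sum_type, Sum.elim_inl, Sum.elim_inr]
    rw [Submodule.mem_sup]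
    constructor
    · rintro ⟨b, hb, c, hc, rfl⟩
      obtain ⟨v, hv⟩ := (F.range0 b).mp hb
      rw [Ideal.mem_span_singleton'] at hc
      obtain ⟨s, rfl⟩ := hc
      refine ⟨Sum.elim v (fun _ => s), ?_⟩
      simp only [Sum.elim_inl, Sum.elim_inr]
      rw [← hv]
      simp [mul_comm]
    · rintro ⟨v, rfl⟩
      refine ⟨_, (F.range0 _).mpr ⟨fun c => v (Sum.inl c), rfl⟩, _, ?_, rfl⟩
      rw [Ideal.mem_span_singleton']
      refine ⟨v (Sum.inr default), ?_⟩
      simp [mul_comm]
  exact i v := by
    classical
    rcases i with _ | j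
    · -- first step
      show (∀ r : F.κ 0, ∑ c : F.κ 1 ⊕ F.κ 0, Sum.elim (fun c => F.D 0 r c) (fun _ => z) c * v c = 0) ↔
        ∃ u : F.κ 2 ⊕ F.κ 1 → R, ∀ r : F.κ 1 ⊕ F.κ 0, v r = ∑ c : F.κ 2 ⊕ F.κ 1,
          Sum.elim (fun r => Sum.elim (fun c => F.D 1 r c)
            (fun c => if r = c then (-1) ^ 1 * z else 0) c)
            (fun r => Sum.elim (fun _ => 0) (fun c => F.D 0 r c) c) r * u c
      simp only [Fintype.sum_sum_type, Sum.elim_inl, Sum.elim_inr]
      constructor
      · intro h
        have h1 := h default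
        have h2 : z * v (Sum.inr default) ∈ I := by
          have : z * v (Sum.inr default) = ∑ c, F.D 0 default c * (-(v (Sum.inl c))) := by
            simp only [mul_neg, Finset.sum_neg_distrib]
            have e : ∑ c : F.κ 0, z * v (Sum.inr c) = z * v (Sum.inr default) := by simp
            rw [e] at h1
            linear_combination h1
          rw [this]
          exact (F.range0 _).mpr ⟨_, rfl⟩
        obtain ⟨b, hb⟩ := (F.range0 _).mp (hreg _ h2)
        have h3 : ∀ r : F.κ 0, ∑ c, F.D 0 r c * (v (Sum.inl c) + z * b c) = 0 := by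
          intro r
          rw [Subsingleton.elim r default]
          have e : ∑ c : F.κ 0, z * v (Sum.inr c) = z * v (Sum.inr default) := by simp
          rw [e, hb, Finset.mul_sum] at h1
          simp only [mul_add, Finset.sum_add_distrib]
          rw [← h1]
          congr 1
          apply Finset.sum_congr rfl
          intro c _
          ring
        obtain ⟨a, ha⟩ := (F.exact 0 _).mp h3
        refine ⟨Sum.elim a b, ?_⟩
        rintro (r | r)
        · simp only [Sum.elim_inl, Sum.elim_inr]
          have := ha r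
          simp only [ite_mul, zero_mul, Finset.sum_ite_eq, Finset.mem_univ, if_true]
          rw [← this]
          ring
        · simp only [Sum.elim_inl, Sum.elim_inr, zero_mul, Finset.sum_const_zero, zero_add]
          rw [Subsingleton.elim r default]
          exact hb
      · rintro ⟨u, hu⟩ r
        have h1 : ∀ r : F.κ 0, ∑ c, F.D 0 r c * ∑ k, F.D 1 c k * u (Sum.inl k) = 0 := by
          exact (F.exact 0 _).mpr ⟨fun k => u (Sum.inl k), fun r => rfl⟩
        have h2 : ∑ c : F.κ 0, z * v (Sum.inr c) = z * v (Sum.inr default) := by simp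
        rw [h2]
        have h3 := hu (Sum.inr default)
        simp only [Sum.elim_inr, Sum.elim_inl, zero_mul, Finset.sum_const_zero, zero_add] at h3
        rw [h3]
        have h4 : ∀ c : F.κ 1, v (Sum.inl c) = (∑ k, F.D 1 c k * u (Sum.inl k)) - z * u (Sum.inr c) := by
          intro c
          have := hu (Sum.inl c)
          simp only [Sum.elim_inl, Sum.elim_inr, ite_mul, zero_mul, Finset.sum_ite_eq,
            Finset.mem_univ, if_true] at this
          rw [this]; ring
        simp only [h4, mul_sub, Finset.sum_sub_distrib]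
        rw [h1 r, Finset.mul_sum, Subsingleton.elim r default]
        rw [zero_sub, neg_add_eq_zero]
        apply Finset.sum_congr rfl
        intro c _
        ring
    · show (∀ r : F.κ (j + 1) ⊕ F.κ j, ∑ c : F.κ (j + 2) ⊕ F.κ (j + 1),
          Sum.elim (fun r => Sum.elim (fun c => F.D (j + 1) r c)
            (fun c => if r = c then (-1) ^ (j + 1) * z else 0) c)
            (fun r => Sum.elim (fun _ => 0) (fun c => F.D j r c) c) r * v c = 0) ↔
        ∃ u : F.κ (j + 3) ⊕ F.κ (j + 2) → R, ∀ r : F.κ (j + 2) ⊕ F.κ (j + 1),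
          v r = ∑ c : F.κ (j + 3) ⊕ F.κ (j + 2),
          Sum.elim (fun r => Sum.elim (fun c => F.D (j + 2) r c)
            (fun c => if r = c then (-1) ^ (j + 2) * z else 0) c)
            (fun r => Sum.elim (fun _ => 0) (fun c => F.D (j + 1) r c) c) r * u c
      simp only [Fintype.sum_sum_type, Sum.elim_inl, Sum.elim_inr]
      constructor
      · intro h
        have hb : ∀ r : F.κ j, ∑ c, F.D j r c * v (Sum.inr c) = 0 := by
          intro r
          have := h (Sum.inr r)
          simpa using this
        obtain ⟨b, hb'⟩ := (F.exact j _).mp hb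
        have h3 : ∀ r : F.κ (j + 1), ∑ c, F.D (j + 1) r c *
            (v (Sum.inl c) + (-1) ^ (j + 1) * z * b c) = 0 := by
          intro r
          have h1 := h (Sum.inl r)
          simp only [Sum.elim_inl, Sum.elim_inr, ite_mul, zero_mul, Finset.sum_ite_eq,
            Finset.mem_univ, if_true] at h1
          rw [hb' r, Finset.mul_sum] at h1
          simp only [mul_add, Finset.sum_add_distrib]
          rw [← h1]
          congr 1
          apply Finset.sum_congr rfl
          intro c _
          ring
        obtain ⟨a, ha⟩ := (F.exact (j + 1) _).mp h3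
        refine ⟨Sum.elim a b, ?_⟩
        rintro (r | r)
        · simp only [Sum.elim_inl, Sum.elim_inr]
          have := ha r
          simp only [ite_mul, zero_mul, Finset.sum_ite_eq, Finset.mem_univ, if_true]
          rw [← this, pow_succ (-1 : R) (j + 1)]
          ring
        · simp only [Sum.elim_inl, Sum.elim_inr, zero_mul, Finset.sum_const_zero, zero_add]
          exact hb' r
      · rintro ⟨u, hu⟩ r
        have hr2 : ∀ c : F.κ (j + 1), v (Sum.inr c) = ∑ k, F.D (j + 1) c k * u (Sum.inr k) := by
          intro c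
          have := hu (Sum.inr c)
          simpa using this
        have hl2 : ∀ c : F.κ (j + 2), v (Sum.inl c) = (∑ k, F.D (j + 2) c k * u (Sum.inl k)) +
            (-1) ^ (j + 2) * z * u (Sum.inr c) := by
          intro c
          have := hu (Sum.inl c)
          simp only [Sum.elim_inl, Sum.elim_inr, ite_mul, zero_mul, Finset.sum_ite_eq,
            Finset.mem_univ, if_true] at this
          exact this
        rcases r with r | r
        · simp only [Sum.elim_inl, Sum.elim_inr, ite_mul, zero_mul, Finset.sum_ite_eq,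
            Finset.mem_univ, if_true]
          simp only [hl2, mul_add, Finset.sum_add_distrib]
          have h1 : ∑ c, F.D (j + 1) r c * ∑ k, F.D (j + 2) c k * u (Sum.inl k) = 0 :=
            (F.exact (j + 1) _).mpr ⟨fun k => u (Sum.inl k), fun r => rfl⟩ r
          rw [h1, zero_add, hr2, Finset.mul_sum, ← Finset.sum_add_distrib]
          apply Finset.sum_eq_zero
          intro c _
          rw [pow_succ (-1 : R) (j + 1)]
          ring
        · simp only [Sum.elim_inl, Sum.elim_inr, zero_mul, Finset.sum_const_zero, zero_add]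
          exact (F.exact j _).mpr ⟨fun k => u (Sum.inr k), hr2⟩ r

end Cyc

end Pool.Agent.UnivKoszul
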