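import Mathlib

open MvPolynomial

namespace Pool.Agent.UnivKoszul

universe u

/-! ### Statement-level definitions -/

section Defs

variable {K : Type u} [Field K] {n : ℕ}

/-- The degree `i` piece of `R = K[x_1,...,x_n]/J`: classes of forms of degree `i`. -/
noncomputable def piece (J : Ideal (MvPolynomial (Fin n) K)) (i : ℕ) :
    Submodule K (MvPolynomial (Fin n) K ⧸ J) :=
  (homogeneousSubmodule (Fin n) K i).map (Ideal.Quotient.mkₐ K J).toLinearMap

/-- `K[x_1,...,x_n]/J` is a standard graded algebra: `J` is homogeneous and contained in the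
square of the ideal of the variables. -/
structure IsStandardGraded (J : Ideal (MvPolynomial (Fin n) K)) : Prop where
  homogeneous : ∀ p ∈ J, ∀ i, homogeneousComponent i p ∈ J
  le_sq : J ≤ (Ideal.span (Set.range (X : Fin n → MvPolynomial (Fin n) K))) ^ 2

/-- A graded free resolution of the ideal `I` of `R = K[x_1,...,x_n]/J` by finite free graded
`R`-modules: the `i`-th module has a basis indexed by `ι i`, with degrees `deg i`. -/
structure GradedResolution (J : Ideal (MvPolynomial (Fin n) K))
    (I : Ideal (MvPolynomial (Fin n) K ⧸ J)) where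
  ι : ℕ → Type
  fin : ∀ i, Fintype (ι i)
  deg : ∀ i, ι i → ℕ
  gen : ι 0 → MvPolynomial (Fin n) K ⧸ J
  gen_mem : ∀ j, gen j ∈ piece J (deg 0 j)
  span_gen : Ideal.span (Set.range gen) = I
  mat : ∀ i, ι i → ι (i + 1) → MvPolynomial (Fin n) K ⧸ J
  mat_mem : ∀ i r c, mat i r c = 0 ∨
    (deg i r ≤ deg (i + 1) c ∧ mat i r c ∈ piece J (deg (i + 1) c - deg i r))
  exact_zero : ∀ v : ι 0 → MvPolynomial (Fin n) K ⧸ J,
    (∑ j, v j * gen j = 0) ↔ ∃ u : ι 1 → MvPolynomial (Fin n) K ⧸ J,
      ∀ r, v r = ∑ c, mat 0 r c * u c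
  exact_succ : ∀ i (v : ι (i + 1) → MvPolynomial (Fin n) K ⧸ J),
    (∀ r, ∑ c, mat i r c * v c = 0) ↔ ∃ u : ι (i + 2) → MvPolynomial (Fin n) K ⧸ J,
      ∀ r, v r = ∑ c, mat (i + 1) r c * u c

/-- `reg_R(I) ≤ r`: some graded free resolution of `I` has its `i`-th module generated in
degrees at most `i + r`, for every `i`. -/
def RegLE (J : Ideal (MvPolynomial (Fin n) K)) (I : Ideal (MvPolynomial (Fin n) K ⧸ J))
    (r : ℕ) : Prop :=
  ∃ F : GradedResolution J I, ∀ i j, F.deg i j ≤ i + r

/-- `I` is generated by elements of degree one. -/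
def IsLinearIdeal (J : Ideal (MvPolynomial (Fin n) K))
    (I : Ideal (MvPolynomial (Fin n) K ⧸ J)) : Prop :=
  ∃ V : Set (MvPolynomial (Fin n) K ⧸ J), V ⊆ piece J 1 ∧ I = Ideal.span V

/-- `R = K[x_1,...,x_n]/J` is universally Koszul: standard graded, and every ideal generated by
elements of degree one has regularity at most one. -/
def IsUniversallyKoszul (J : Ideal (MvPolynomial (Fin n) K)) : Prop :=
  IsStandardGraded J ∧ ∀ I, IsLinearIdeal J I → RegLE J I 1

end Defs

attribute [instance] GradedResolution.fin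

end Pool.Agent.UnivKoszul
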