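import Pool.Agent.UnivKoszul.Pos2

open MvPolynomial

namespace Pool.Agent.UnivKoszul

universe u

section Neg

variable (K : Type u) [Field K]

/-- coefficient of `z^i w^j` -/
noncomputable def cf (i j : ℕ) : AA K →+ K where
  toFun p := (p.coeff j).coeff i
  map_zero' := by simp
  map_add' := by simp

/-- monomials -/
noncomputable def mono (k : K) (i j : ℕ) : AA K :=
  Polynomial.C (Polynomial.C k) * Polynomial.C Polynomial.X ^ i * Polynomial.X ^ j

lemma cf_apply (i j : ℕ) (p : AA K) : cf K i j p = (p.coeff j).coeff i := rfl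

lemma cf_mono (k : K) (a b i j : ℕ) : cf K i j (mono K k a b) = if i = a ∧ j = b then k else 0 := by
  have : mono K k a b = Polynomial.C (Polynomial.C k * Polynomial.X ^ a) * Polynomial.X ^ b := by
    rw [mono, map_mul, map_pow]
  rw [cf_apply, this, Polynomial.coeff_C_mul_X_pow]
  by_cases h : j = b
  · rw [if_pos h, Polynomial.coeff_C_mul_X_pow]
    simp [h]
  · rw [if_neg h]
    simp [h]

/-- the four products -/
noncomputable def ff : Fin 4 → RR K :=
  ![xx K 2 * (xx K 2 - xx K 0), xx K 2 * (xx K 3 - xx K 1), xx K 3 * (xx K 2 - xx K 0),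
    xx K 3 * (xx K 3 - xx K 1)]

lemma psi_ff0 : psi K (ff K 0) = ⟨mono K 1 2 0, -mono K 1 1 0, 0, 0⟩ := by
  have : ff K 0 = xx K 2 * (xx K 2 - xx K 0) := rfl
  rw [this]
  simp only [map_mul, map_sub, psi_xx2, psi_xx0]
  ext1 <;> simp [mono, pow_two] <;> ring

lemma psi_ff1 : psi K (ff K 1) = ⟨mono K 1 1 1, 0, -mono K 1 1 0, 0⟩ := by
  have : ff K 1 = xx K 2 * (xx K 3 - xx K 1) := rfl
  rw [this]
  simp only [map_mul, map_sub, psi_xx2, psi_xx1, psi_xx3]
  ext1 <;> simp [mono, pow_two] <;> ring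

lemma psi_ff2 : psi K (ff K 2) = ⟨mono K 1 1 1, -mono K 1 0 1, 0, 0⟩ := by
  have : ff K 2 = xx K 3 * (xx K 2 - xx K 0) := rfl
  rw [this]
  simp only [map_mul, map_sub, psi_xx2, psi_xx0, psi_xx3]
  ext1 <;> simp [mono, pow_two] <;> ring

lemma psi_ff3 : psi K (ff K 3) = ⟨mono K 1 0 2, 0, -mono K 1 0 1, 0⟩ := by
  have : ff K 3 = xx K 3 * (xx K 3 - xx K 1) := rfl
  rw [this]
  simp only [map_mul, map_sub, psi_xx1, psi_xx3]
  ext1 <;> simp [mono, pow_two] <;> ring

lemma mono_mul (k l : K) (a b c d : ℕ) : mono K k a b * mono K l c d = mono K (k * l) (a + c) (b + d) := by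
  simp only [mono, map_mul, pow_add]
  ring

/-- coefficient of a product with a monomial -/
lemma cf_mul_mono (p : AA K) (a b i j : ℕ) : cf K i j (p * mono K 1 a b) =
    if a ≤ i ∧ b ≤ j then cf K (i - a) (j - b) p else 0 := by
  have : p * mono K 1 a b = p * Polynomial.C (Polynomial.X ^ a) * Polynomial.X ^ b := by
    rw [mono, map_pow, map_one, map_one, one_mul, mul_assoc]
  rw [cf_apply, this, Polynomial.coeff_mul_X_pow']
  by_cases h : b ≤ j
  · rw [if_pos h, Polynomial.coeff_mul_C, Polynomial.coeff_mul_X_pow']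
    simp only [h, and_true]
    rfl
  · rw [if_neg h]
    simp [h]

lemma mul_neg' (p q : AA K) : p * -q = -(p * q) := mul_neg p q

/-- the functional -/
noncomputable def Lam (r : RR K) : K := cf K 0 0 (psi K r).d + cf K 1 0 (psi K r).c

lemma Lam_add (r s : RR K) : Lam K (r + s) = Lam K r + Lam K s := by
  simp only [Lam, map_add, Quad.add_c, Quad.add_d]
  ring

lemma Lam_zero : Lam K 0 = 0 := by
  simp only [Lam, map_zero, Quad.zero_c, Quad.zero_d, add_zero]

lemma Lam_sum {ι : Type*} (s : Finset ι) (f : ι → RR K) : Lam K (∑ i ∈ s, f i) = ∑ i ∈ s, Lam K (f i) := by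
  classical
  induction s using Finset.induction_on with
  | empty => simp [Lam_zero]
  | insert a s ha ih => rw [Finset.sum_insert ha, Finset.sum_insert ha, Lam_add, ih]

/-- constant coefficient of an arbitrary syzygy -/
lemma syz_const (m : Fin 4 → RR K) (h : ∑ a, m a * ff K a = 0) :
    cf K 0 0 (psi K (m 1)).a = 0 := by
  have h1 := congrArg (fun r => (psi K r).c) h
  simp only [Fin.sum_univ_four, map_add, map_mul, psi_ff0, psi_ff1, psi_ff2, psi_ff3,
    Quad.add_c, Quad.mul_c, map_zero, Quad.zero_c, mul_zero, zero_add, mul_neg'] at h1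
  have h2 := congrArg (cf K 1 0) h1
  simp only [map_add, map_neg, cf_mul_mono, map_zero] at h2
  simpa using h2

/-- linear syzygies -/
lemma syz_linear (e : Fin 4 → K) (c : Fin 4 → Fin 4 → K)
    (h : ∑ a, (algebraMap K (RR K) (e a) + lin K (c a)) * ff K a = 0) :
    e 1 = 0 ∧ c 1 1 = 0 ∧ c 1 0 + c 1 2 = 0 := by
  have hpsi : ∀ a, psi K (algebraMap K (RR K) (e a) + lin K (c a)) =
      ⟨mono K (e a) 0 0 + mono K (c a 2) 1 0 + mono K (c a 3) 0 1, mono K (c a 0) 0 0,
        mono K (c a 1) 0 0, 0⟩ := by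
    intro a
    rw [map_add, psi_alg, psi_lin]
    ext1 <;> simp [mono, add_assoc]
  have he : ∀ (i j k l : ℕ) (x : K), cf K i j (mono K x k l) = if i = k ∧ j = l then x else 0 :=
    fun i j k l x => cf_mono K x k l i j
  have h0 := congrArg (psi K) h
  simp only [Fin.sum_univ_four, map_add, map_mul, psi_ff0, psi_ff1, psi_ff2, psi_ff3] at h0
  simp only [← map_add, hpsi] at h0
  have ha := congrArg Quad.a h0
  have hb := congrArg Quad.b h0
  have hc := congrArg Quad.c h0
  have hd := congrArg Quad.d h0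
  simp only [Quad.add_a, Quad.mul_a, map_zero, Quad.zero_a, Quad.add_b, Quad.mul_b, Quad.zero_b,
    Quad.add_c, Quad.mul_c, Quad.zero_c, Quad.add_d, Quad.mul_d, Quad.zero_d, mul_zero, zero_add,
    mul_neg', zero_mul, add_zero] at ha hb hc hd
  have c1 := congrArg (cf K 1 0) hc
  have c2 := congrArg (cf K 2 0) hc
  have c3 := congrArg (cf K 1 1) hc
  have d1 := congrArg (cf K 1 0) hd
  have d2 := congrArg (cf K 0 1) hd
  have b1 := congrArg (cf K 0 2) hb
  have a1 := congrArg (cf K 1 2) ha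
  simp only [map_add, map_neg, cf_mul_mono, map_zero, he] at c1 c2 c3 d1 d2 b1 a1
  norm_num at c1 c2 c3 d1 d2 b1 a1
  refine ⟨?_, ?_, ?_⟩
  · exact c1
  · linear_combination c3 + a1 + b1 + d2
  · linear_combination -d1 - c2

end Neg

end Pool.Agent.UnivKoszul
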