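import Pool.Agent.UnivKoszul.Neg

open MvPolynomial

namespace Pool.Agent.UnivKoszul

universe u

section Neg2

variable (K : Type u) [Field K]

/-- the functional kills multiples of linear syzygies -/
lemma Lam_mul_lin (u : RR K) (c : Fin 4 → K) (h1 : c 1 = 0) (h2 : c 0 + c 2 = 0) :
    Lam K (u * lin K c) = 0 := by
  have hpsi : psi K (lin K c) =
      ⟨mono K (c 2) 1 0 + mono K (c 3) 0 1, mono K (c 0) 0 0, 0, 0⟩ := by
    rw [psi_lin, h1]
    ext1 <;> simp [mono]
  have hm : ∀ (k : K) (a b : ℕ) (p : AA K), p * mono K k a b = mono K k 0 0 * (p * mono K 1 a b) := by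
    intro k a b p
    have : mono K k a b = mono K k 0 0 * mono K 1 a b := by
      rw [mono_mul, mul_one, zero_add, zero_add]
    rw [this]
    ring
  have hk : ∀ (k : K) (i j : ℕ) (p : AA K), cf K i j (mono K k 0 0 * p) = k * cf K i j p := by
    intro k i j p
    simp only [mono, pow_zero, mul_one, cf_apply, Polynomial.coeff_C_mul]
  unfold Lam
  rw [map_mul, hpsi]
  simp only [Quad.mul_d, Quad.mul_c, mul_zero, zero_add, add_zero, mul_add, map_add]
  rw [hm (c 2), hm (c 3), hm (c 0), hm (c 2), hm (c 3)]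
  simp only [hk, cf_mul_mono]
  norm_num
  linear_combination (cf K 0 0 (psi K u).c) * h2

lemma Lam_xy (m : RR K) : Lam K (xx K 0 * xx K 1 * m) = cf K 0 0 (psi K m).a := by
  unfold Lam
  simp only [map_mul, psi_xx0, psi_xx1, Quad.mul_a, Quad.mul_b, Quad.mul_c, Quad.mul_d, mul_zero,
    zero_mul, zero_add, add_zero, mul_one, one_mul, map_zero]

lemma homComp_two (F : MvPolynomial (Fin 4) K) (hF : F.IsHomogeneous 2)
    (q : MvPolynomial (Fin 4) K) :
    homogeneousComponent 2 (q * F) = C (coeff 0 q) * F := by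
  induction q using MvPolynomial.induction_on' with
  | monomial m c =>
    have hh : (monomial m c * F).IsHomogeneous (m.degree + 2) :=
      (isHomogeneous_monomial c rfl).mul hF
    rw [homogeneousComponent_of_mem hh]
    by_cases hm : m = 0
    · subst hm
      simp
    · have hd : m.degree ≠ 0 := by
        intro h
        exact hm (by simpa [Finsupp.degree_eq_zero_iff] using h)
      rw [if_neg (by omega), coeff_monomial, if_neg hm, C_0, zero_mul]
  | add p q hp hq =>
    rw [add_mul, map_add, hp, hq, coeff_add, C_add, add_mul]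

lemma homComp_low (F : MvPolynomial (Fin 4) K) (hF : F.IsHomogeneous 2)
    (q : MvPolynomial (Fin 4) K) (d : ℕ) (hd : d < 2) :
    homogeneousComponent d (q * F) = 0 := by
  induction q using MvPolynomial.induction_on' with
  | monomial m c =>
    have hh : (monomial m c * F).IsHomogeneous (m.degree + 2) :=
      (isHomogeneous_monomial c rfl).mul hF
    rw [homogeneousComponent_of_mem hh, if_neg (by omega)]
  | add p q hp hq =>
    rw [add_mul, map_add, hp, hq, add_zero]

/-- lifts of the four products -/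
noncomputable def FF : Fin 4 → MvPolynomial (Fin 4) K :=
  ![X 2 * (X 2 - X 0), X 2 * (X 3 - X 1), X 3 * (X 2 - X 0), X 3 * (X 3 - X 1)]

lemma FF_hom (a : Fin 4) : (FF K a).IsHomogeneous 2 := by
  have h : ∀ i j k : Fin 4, (X i * (X j - X k) : MvPolynomial (Fin 4) K).IsHomogeneous 2 := by
    intro i j k
    exact (isHomogeneous_X K i).mul ((isHomogeneous_X K j).sub (isHomogeneous_X K k))
  fin_cases a
  · exact h _ _ _
  · exact h _ _ _
  · exact h _ _ _
  · exact h _ _ _

lemma mk_FF (a : Fin 4) : Ideal.Quotient.mk (sqIdeal K) (FF K a) = ff K a := by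
  fin_cases a
  · show Ideal.Quotient.mk (sqIdeal K) (X 2 * (X 2 - X 0)) = _
    rw [map_mul, map_sub]; rfl
  · show Ideal.Quotient.mk (sqIdeal K) (X 2 * (X 3 - X 1)) = _
    rw [map_mul, map_sub]; rfl
  · show Ideal.Quotient.mk (sqIdeal K) (X 3 * (X 2 - X 0)) = _
    rw [map_mul, map_sub]; rfl
  · show Ideal.Quotient.mk (sqIdeal K) (X 3 * (X 3 - X 1)) = _
    rw [map_mul, map_sub]; rfl

/-- elements of degree at most two in the product ideal -/
lemma low_degree {g : RR K} {d : ℕ} (hd : d ≤ 2) (hg : g ∈ piece (sqIdeal K) d)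
    (hgI : g ∈ Ideal.span (Set.range (ff K))) :
    ∃ t : Fin 4 → K, g = ∑ a, algebraMap K (RR K) (t a) * ff K a ∧ (d < 2 → t = 0) := by
  obtain ⟨p, hp, rfl⟩ := hg
  have hp' : homogeneousComponent d p = p := homogeneousComponent_eq_self hp
  obtain ⟨r, hr⟩ := (Ideal.mem_span_range_iff_exists_fun).mp hgI
  have hq : ∀ a, ∃ q : MvPolynomial (Fin 4) K, Ideal.Quotient.mk (sqIdeal K) q = r a :=
    fun a => Ideal.Quotient.mk_surjective (r a)
  choose q hq using hq
  have hmem : p - ∑ a, q a * FF K a ∈ sqIdeal K := by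
    rw [← Ideal.Quotient.eq_zero_iff_mem, map_sub, map_sum]
    simp only [map_mul, hq, mk_FF]
    rw [hr]
    exact sub_self _
  have h2 := (standard_graded K).homogeneous _ hmem d
  rw [map_sub, hp', map_sum] at h2
  rcases Nat.lt_or_ge d 2 with h | h
  · refine ⟨0, ?_, fun _ => rfl⟩
    simp only [homComp_low K _ (FF_hom K _) _ d h, Finset.sum_const_zero, sub_zero] at h2
    rw [← Ideal.Quotient.eq_zero_iff_mem] at h2
    simpa using h2
  · have h3 : d = 2 := by omega
    subst h3
    refine ⟨fun a => coeff 0 (q a), ?_, fun h => absurd h (lt_irrefl _)⟩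
    simp only [homComp_two K _ (FF_hom K _) _] at h2
    rw [← Ideal.Quotient.eq_zero_iff_mem, map_sub, map_sum] at h2
    simp only [map_mul, mk_FF] at h2
    exact sub_eq_zero.mp h2

lemma piece_zero_mem {r : RR K} (h : r ∈ piece (sqIdeal K) 0) : ∃ e : K, r = algebraMap K (RR K) e := by
  obtain ⟨p, hp, rfl⟩ := h
  have hp' : homogeneousComponent 0 p = p := homogeneousComponent_eq_self hp
  rw [homogeneousComponent_zero] at hp'
  refine ⟨coeff 0 p, ?_⟩
  conv_lhs => rw [← hp']
  rfl

end Neg2

end Pool.Agent.UnivKoszul
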