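import Pool.Agent.UnivKoszul.Neg2

open MvPolynomial

namespace Pool.Agent.UnivKoszul

universe u

section Neg3

variable (K : Type u) [Field K]

lemma prod_eq : Ideal.span {xx K 2, xx K 3} * Ideal.span {xx K 2 - xx K 0, xx K 3 - xx K 1} =
    Ideal.span (Set.range (ff K)) := by
  rw [Ideal.span_pair_mul_span_pair]
  congr 1
  ext r
  simp only [Set.mem_insert_iff, Set.mem_singleton_iff, Set.mem_range]
  constructor
  · rintro (rfl | rfl | rfl | rfl)
    · exact ⟨0, rfl⟩
    · exact ⟨1, rfl⟩
    · exact ⟨2, rfl⟩
    · exact ⟨3, rfl⟩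
  · rintro ⟨a, rfl⟩
    fin_cases a
    · left; rfl
    · right; left; rfl
    · right; right; left; rfl
    · right; right; right; rfl

lemma ff_zero_ne : ff K 0 ≠ 0 := by
  intro h
  have h1 := congrArg (fun r => cf K 2 0 (psi K r).a) h
  simp only [psi_ff0, map_zero, Quad.zero_a, cf_mono] at h1
  simp at h1

lemma prod_ne_bot : Ideal.span {xx K 2, xx K 3} * Ideal.span {xx K 2 - xx K 0, xx K 3 - xx K 1} ≠
    ⊥ := by
  rw [prod_eq]
  intro h
  have : ff K 0 ∈ Ideal.span (Set.range (ff K)) := Ideal.subset_span ⟨0, rfl⟩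
  rw [h, Ideal.mem_bot] at this
  exact ff_zero_ne K this

theorem not_reg (h : RegLE (sqIdeal K) (Ideal.span (Set.range (ff K))) 2) : False := by
  obtain ⟨F, hF⟩ := h
  have hdeg0 : ∀ j, F.deg 0 j ≤ 2 := fun j => by simpa using hF 0 j
  have hdeg1 : ∀ c, F.deg 1 c ≤ 3 := fun c => hF 1 c
  have hgI : ∀ j, F.gen j ∈ Ideal.span (Set.range (ff K)) := by
    intro j
    exact F.span_gen.le (Ideal.subset_span ⟨j, rfl⟩)
  choose t ht ht0 using fun j => low_degree K (hdeg0 j) (F.gen_mem j) (hgI j)
  have hff : ∀ b, ∃ r : F.ι 0 → RR K, ∑ j, r j * F.gen j = ff K b := by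
    intro b
    have : ff K b ∈ Ideal.span (Set.range F.gen) :=
      F.span_gen.ge (Ideal.subset_span ⟨b, rfl⟩)
    exact Ideal.mem_span_range_iff_exists_fun.mp this
  choose r hr using hff
  let A : K → RR K := algebraMap K (RR K)
  -- matrix of the composition
  let M : Fin 4 → Fin 4 → RR K := fun b a => ∑ j, r b j * A (t j a)
  have hM : ∀ b, ∑ a, M b a * ff K a = ff K b := by
    intro b
    conv_rhs => rw [← hr b]
    simp only [M, Finset.sum_mul]
    rw [Finset.sum_comm]
    apply Finset.sum_congr rfl
    intro j _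
    rw [ht j, Finset.mul_sum]
    apply Finset.sum_congr rfl
    intro a _
    rw [mul_assoc]
  have hM11 : cf K 0 0 (psi K (M 1 1)).a = 1 := by
    have := syz_const K (fun a => M 1 a - if a = 1 then 1 else 0) (by
      simp only [sub_mul, Finset.sum_sub_distrib, hM, ite_mul, one_mul, zero_mul,
        Finset.sum_ite_eq', Finset.mem_univ, if_true, sub_self])
    simp only [if_true, map_sub, map_one, Quad.sub_a, Quad.one_a] at this
    have h1 : cf K 0 0 (1 : AA K) = 1 := by
      simp [cf_apply]
    rw [h1] at this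
    exact sub_eq_zero.mp this
  have hM21 : cf K 0 0 (psi K (M 2 1)).a = 0 := by
    have := syz_const K (fun a => M 2 a - if a = 2 then 1 else 0) (by
      simp only [sub_mul, Finset.sum_sub_distrib, hM, ite_mul, one_mul, zero_mul,
        Finset.sum_ite_eq', Finset.mem_univ, if_true, sub_self])
    have h12 : ¬ ((1 : Fin 4) = 2) := by decide
    simpa only [h12, if_false, sub_zero] using this
  -- the syzygy
  let v : F.ι 0 → RR K := fun j => xx K 0 * xx K 1 * (r 1 j - r 2 j)
  have hv : ∑ j, v j * F.gen j = 0 := by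
    have : ∑ j, v j * F.gen j = xx K 0 * xx K 1 * (ff K 1 - ff K 2) := by
      rw [← hr 1, ← hr 2, ← Finset.sum_sub_distrib, Finset.mul_sum]
      apply Finset.sum_congr rfl
      intro j _
      simp only [v]
      ring
    rw [this]
    have e1 : ff K 1 = xx K 2 * (xx K 3 - xx K 1) := rfl
    have e2 : ff K 2 = xx K 3 * (xx K 2 - xx K 0) := rfl
    rw [e1, e2]
    linear_combination (xx K 1 * xx K 3) * sq0 K - (xx K 0 * xx K 2) * sq1 K
  obtain ⟨u, hu⟩ := (F.exact_zero v).mp hv
  have hT1 : Lam K (∑ j, v j * A (t j 1)) = 1 := by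
    have : ∑ j, v j * A (t j 1) = xx K 0 * xx K 1 * (M 1 1 - M 2 1) := by
      simp only [M, v]
      rw [← Finset.sum_sub_distrib, Finset.mul_sum]
      apply Finset.sum_congr rfl
      intro j _
      ring
    rw [this, Lam_xy, map_sub, Quad.sub_a, map_sub, hM11, hM21, sub_zero]
  have hT2 : Lam K (∑ j, v j * A (t j 1)) = 0 := by
    let s : F.ι 1 → Fin 4 → RR K := fun c a => ∑ j, F.mat 0 j c * A (t j a)
    have e : ∑ j, v j * A (t j 1) = ∑ c, u c * s c 1 := by
      simp only [s, hu, Finset.sum_mul, Finset.mul_sum]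
      rw [Finset.sum_comm]
      apply Finset.sum_congr rfl
      intro c _
      apply Finset.sum_congr rfl
      intro j _
      ring
    rw [e, Lam_sum]
    apply Finset.sum_eq_zero
    intro c _
    have hsyz : ∑ a, s c a * ff K a = 0 := by
      have h1 : ∑ j, F.mat 0 j c * F.gen j = 0 := by
        classical
        apply (F.exact_zero (fun j => F.mat 0 j c)).mpr
        refine ⟨fun c' => if c' = c then 1 else 0, fun j => ?_⟩
        simp
      rw [← h1]
      simp only [s, Finset.sum_mul]
      rw [Finset.sum_comm]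
      apply Finset.sum_congr rfl
      intro j _
      conv_rhs => rw [ht j]
      rw [Finset.mul_sum]
      apply Finset.sum_congr rfl
      intro a _
      rw [mul_assoc]
    have hlin : ∀ a, ∃ (e : K) (d : Fin 4 → K), s c a = A e + lin K d := by
      intro a
      have hj : ∀ j, ∃ (e : K) (d : Fin 4 → K), F.mat 0 j c * A (t j a) = A e + lin K d := by
        intro j
        rcases F.mat_mem 0 j c with h | ⟨h1, h2⟩
        · exact ⟨0, 0, by rw [h, zero_mul, map_zero, add_zero]; exact (map_zero _).symm⟩
        · rcases Nat.lt_or_ge (F.deg 0 j) 2 with h3 | h3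
          · refine ⟨0, 0, ?_⟩
            rw [ht0 j h3, map_zero, add_zero]
            show F.mat 0 j c * algebraMap K (RR K) 0 = algebraMap K (RR K) 0
            rw [map_zero, mul_zero]
          · have h4 : F.deg 0 j = 2 := le_antisymm (hdeg0 j) h3
            have h5 := hdeg1 c
            have h6 : F.deg (0 + 1) c - F.deg 0 j = 0 ∨ F.deg (0 + 1) c - F.deg 0 j = 1 := by
              have : F.deg (0 + 1) c = F.deg 1 c := rfl
              omega
            rcases h6 with h6 | h6
            · rw [h6] at h2
              obtain ⟨e, he⟩ := piece_zero_mem K h2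
              refine ⟨e * t j a, 0, ?_⟩
              rw [he, map_zero, add_zero]
              exact (map_mul _ _ _).symm
            · rw [h6] at h2
              obtain ⟨d, hd⟩ := (mem_piece_one_iff K _).mp h2
              refine ⟨0, t j a • d, ?_⟩
              rw [hd, map_smul, smul_def']
              show lin K d * algebraMap K (RR K) (t j a) = algebraMap K (RR K) 0 + _
              rw [map_zero]
              ring
      choose e d hed using hj
      refine ⟨∑ j, e j, ∑ j, d j, ?_⟩
      simp only [s, hed, Finset.sum_add_distrib, map_sum]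
      congr 1
      exact (map_sum (algebraMap K (RR K)) _ _).symm
    choose e d hed using hlin
    have h7 := syz_linear K e d (by
      rw [← hsyz]
      apply Finset.sum_congr rfl
      intro a _
      rw [hed a])
    rw [hed 1, h7.1]
    have : A 0 = 0 := map_zero _
    rw [this, zero_add]
    exact Lam_mul_lin K _ _ h7.2.1 h7.2.2
  rw [hT1] at hT2
  exact one_ne_zero hT2

end Neg3

end Pool.Agent.UnivKoszul
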