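import Pool.Agent.UnivKoszul.RingR

open MvPolynomial

namespace Pool.Agent.UnivKoszul

universe u

section Pos

variable (K : Type u) [Field K]

/-- linear forms -/
noncomputable def lin : (Fin 4 → K) →ₗ[K] RR K where
  toFun c := c 0 • xx K 0 + c 1 • xx K 1 + c 2 • xx K 2 + c 3 • xx K 3
  map_add' c d := by
    simp only [Pi.add_apply, add_smul]
    abel
  map_smul' k c := by
    simp only [Pi.smul_apply, smul_eq_mul, mul_smul, smul_add, RingHom.id_apply]

lemma lin_apply (c : Fin 4 → K) : lin K c =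
    c 0 • xx K 0 + c 1 • xx K 1 + c 2 • xx K 2 + c 3 • xx K 3 := rfl

lemma smul_def' (a : K) (r : RR K) : a • r = algebraMap K (RR K) a * r := Algebra.smul_def a r

lemma psi_smul (a : K) (r : RR K) : psi K (a • r) =
    Quad.inc (Polynomial.C (Polynomial.C a)) * psi K r := by
  rw [smul_def', map_mul, psi_alg]

lemma psi_lin (c : Fin 4 → K) : psi K (lin K c) =
    ⟨Polynomial.C (Polynomial.C (c 2)) * Polynomial.C Polynomial.X +
      Polynomial.C (Polynomial.C (c 3)) * Polynomial.X,
      Polynomial.C (Polynomial.C (c 0)), Polynomial.C (Polynomial.C (c 1)), 0⟩ := by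
  rw [lin_apply]
  simp only [map_add, psi_smul, psi_xx0, psi_xx1, psi_xx2, psi_xx3]
  ext1 <;> simp

lemma cc_smul (a : K) (p : AA K) : cc K (Polynomial.C (Polynomial.C a) * p) = a • cc K p := by
  rw [map_mul, cc_CC, smul_def']

/-- nonzerodivisors -/
lemma lin_nzd (c : Fin 4 → K) (hc : c 2 ≠ 0 ∨ c 3 ≠ 0) (r : RR K) (h : lin K c * r = 0) :
    r = 0 := by
  have h1 := congrArg (psi K) h
  rw [map_mul, psi_lin, map_zero] at h1
  set u0 : AA K := Polynomial.C (Polynomial.C (c 2)) * Polynomial.C Polynomial.X +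
      Polynomial.C (Polynomial.C (c 3)) * Polynomial.X with hu0
  have hu : u0 ≠ 0 := by
    intro h0
    rcases hc with hc | hc
    · have := congrArg (fun p => (Polynomial.coeff p 0).coeff 1) h0
      simp [hu0] at this
      exact hc this
    · have := congrArg (fun p => (Polynomial.coeff p 1).coeff 0) h0
      simp only [hu0, Polynomial.coeff_add, Polynomial.coeff_C_mul, Polynomial.coeff_C_succ,
        Polynomial.coeff_X_one, mul_zero, mul_one, Polynomial.coeff_C_zero, zero_add,
        Polynomial.coeff_zero] at this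
      exact hc this
  have ha := congrArg Quad.a h1
  have hb := congrArg Quad.b h1
  have hc := congrArg Quad.c h1
  have hd := congrArg Quad.d h1
  simp only [Quad.mul_a, Quad.mul_b, Quad.mul_c, Quad.mul_d, Quad.zero_a, Quad.zero_b,
    Quad.zero_c, Quad.zero_d] at ha hb hc hd
  have ea : (psi K r).a = 0 := by
    rcases mul_eq_zero.mp ha with h | h
    · exact absurd h hu
    · exact h
  rw [ea] at hb hc hd
  have eb : (psi K r).b = 0 := by
    rcases mul_eq_zero.mp (show u0 * (psi K r).b = 0 by linear_combination hb) with h | h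
    · exact absurd h hu
    · exact h
  have ec : (psi K r).c = 0 := by
    rcases mul_eq_zero.mp (show u0 * (psi K r).c = 0 by linear_combination hc) with h | h
    · exact absurd h hu
    · exact h
  rw [eb, ec] at hd
  have ed : (psi K r).d = 0 := by
    rcases mul_eq_zero.mp (show u0 * (psi K r).d = 0 by linear_combination hd) with h | h
    · exact absurd h hu
    · exact h
  rw [← phi_psi K r, phi, ea, eb, ec, ed]
  simp

lemma ann_xy (r : RR K) : (xx K 0 * xx K 1) * r = 0 ↔ ∃ a b, r = xx K 0 * a + xx K 1 * b := by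
  constructor
  · intro h
    have h1 := congrArg (psi K) h
    rw [map_mul, map_mul, psi_xx0, psi_xx1, map_zero] at h1
    have ha := congrArg Quad.d h1
    simp only [Quad.mul_a, Quad.mul_b, Quad.mul_c, Quad.mul_d, Quad.zero_d, mul_zero, zero_mul,
      mul_one, one_mul, add_zero, zero_add] at ha
    refine ⟨cc K (psi K r).b + cc K (psi K r).d * xx K 1, cc K (psi K r).c, ?_⟩
    conv_lhs => rw [← phi_psi K r, phi, ha]
    rw [map_zero]
    ring
  · rintro ⟨a, b, rfl⟩
    linear_combination (xx K 1 * a) * sq0 K + xx K 0 * b * sq1 K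

lemma ann_l (a b : K) (hab : a ≠ 0 ∨ b ≠ 0) (r : RR K) :
    (a • xx K 0 + b • xx K 1) * r = 0 ↔ ∃ s, r = (a • xx K 0 + (-b) • xx K 1) * s := by
  constructor
  · intro h
    have h1 := congrArg (psi K) h
    rw [map_mul, map_add, psi_smul, psi_smul, psi_xx0, psi_xx1, map_zero] at h1
    have hb := congrArg Quad.b h1
    have hc := congrArg Quad.c h1
    have hd := congrArg Quad.d h1
    simp only [Quad.mul_a, Quad.mul_b, Quad.mul_c, Quad.mul_d, Quad.zero_d, mul_zero, zero_mul,
      mul_one, one_mul, add_zero, zero_add, Quad.add_a, Quad.add_b, Quad.add_c, Quad.add_d,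
      Quad.inc_a, Quad.inc_b, Quad.inc_c, Quad.inc_d, Quad.zero_b, Quad.zero_c] at hb hc hd
    have ea : (psi K r).a = 0 := by
      rcases hab with h | h
      · rcases mul_eq_zero.mp hb with h' | h'
        · simp at h'
          exact absurd h' h
        · exact h'
      · rcases mul_eq_zero.mp hc with h' | h'
        · simp at h'
          exact absurd h' h
        · exact h'
    have hd' := congrArg (cc K) hd
    rw [map_add, cc_smul, cc_smul, map_zero] at hd'
    simp only [smul_def'] at hd'
    have key : r = cc K (psi K r).b * xx K 0 + cc K (psi K r).c * xx K 1 +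
        cc K (psi K r).d * (xx K 0 * xx K 1) := by
      conv_lhs => rw [← phi_psi K r, phi, ea]
      rw [map_zero]
      ring
    by_cases ha : a = 0
    · have hb0 : b ≠ 0 := by
        rcases hab with h | h
        · exact absurd ha h
        · exact h
      have hbi : algebraMap K (RR K) b * algebraMap K (RR K) b⁻¹ = 1 := by
        rw [← map_mul, mul_inv_cancel₀ hb0, map_one]
      subst ha
      refine ⟨-(algebraMap K (RR K) b⁻¹ * (cc K (psi K r).c + cc K (psi K r).d * xx K 0)), ?_⟩
      simp only [smul_def', map_zero, zero_mul, zero_add, map_neg] at hd' ⊢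
      have hb1 : cc K (psi K r).b = 0 := by
        linear_combination (-(cc K (psi K r).b)) * hbi + algebraMap K (RR K) b⁻¹ * hd'
      rw [hb1] at key
      linear_combination key - (xx K 1 * (cc K (psi K r).c + cc K (psi K r).d * xx K 0)) * hbi
    · have hai : algebraMap K (RR K) a * algebraMap K (RR K) a⁻¹ = 1 := by
        rw [← map_mul, mul_inv_cancel₀ ha, map_one]
      refine ⟨algebraMap K (RR K) a⁻¹ * (cc K (psi K r).b + cc K (psi K r).d * xx K 1), ?_⟩
      simp only [smul_def', map_neg] at hd' ⊢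
      linear_combination key - (cc K (psi K r).b * xx K 0 + cc K (psi K r).d * (xx K 0 * xx K 1) +
        cc K (psi K r).c * xx K 1) * hai + (algebraMap K (RR K) a⁻¹ * xx K 1) * hd' +
        (algebraMap K (RR K) b * algebraMap K (RR K) a⁻¹ * cc K (psi K r).d) * sq1 K
  · rintro ⟨s, rfl⟩
    simp only [smul_def', map_neg]
    linear_combination (algebraMap K (RR K) a ^ 2 * s) * sq0 K -
      (algebraMap K (RR K) b ^ 2 * s) * sq1 K

/-- the ideal of a space of linear forms -/
noncomputable def II (U : Submodule K (Fin 4 → K)) : Ideal (RR K) :=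
  Ideal.span (lin K '' (U : Set (Fin 4 → K)))

lemma lin_mem_II {U : Submodule K (Fin 4 → K)} {c : Fin 4 → K} (hc : c ∈ U) :
    lin K c ∈ II K U := Ideal.subset_span ⟨c, hc, rfl⟩

/-- substitution killing `z + a x + b y` -/
noncomputable def eps0 (a b : K) : MvPolynomial (Fin 4) K →ₐ[K] RR K :=
  aeval ![xx K 0, xx K 1, -(a • xx K 0 + b • xx K 1), xx K 3]

lemma eps0_zero (a b : K) : ∀ p ∈ sqIdeal K, (eps0 K a b : MvPolynomial (Fin 4) K →+* RR K) p = 0 := by
  intro p hp
  have : sqIdeal K ≤ RingHom.ker (eps0 K a b : MvPolynomial (Fin 4) K →+* RR K) := by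
    unfold sqIdeal
    rw [Ideal.span_le]
    rintro q (rfl | rfl)
    · show eps0 K a b (X 0 ^ 2) = 0
      rw [pow_two, map_mul, eps0, aeval_X]
      exact sq0 K
    · show eps0 K a b (X 1 ^ 2) = 0
      rw [pow_two, map_mul, eps0, aeval_X]
      exact sq1 K
  exact this hp

/-- substitution killing `z + a x + b y` -/
noncomputable def epsm (a b : K) : RR K →+* RR K :=
  Ideal.Quotient.lift _ (eps0 K a b : MvPolynomial (Fin 4) K →+* RR K) (eps0_zero K a b)

lemma epsm_xx0 (a b : K) : epsm K a b (xx K 0) = xx K 0 := by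
  simp [epsm, eps0, xx]

lemma epsm_xx1 (a b : K) : epsm K a b (xx K 1) = xx K 1 := by
  simp [epsm, eps0, xx]

lemma epsm_xx2 (a b : K) : epsm K a b (xx K 2) = -(a • xx K 0 + b • xx K 1) := by
  simp [epsm, eps0, xx]

lemma epsm_xx3 (a b : K) : epsm K a b (xx K 3) = xx K 3 := by
  simp [epsm, eps0, xx]

lemma epsm_alg (a b k : K) : epsm K a b (algebraMap K (RR K) k) = algebraMap K (RR K) k := by
  have : algebraMap K (RR K) k = Ideal.Quotient.mk _ (C k) := rfl
  rw [this]
  simp only [epsm, Ideal.Quotient.lift_mk, RingHom.coe_coe, eps0, aeval_C]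
  rfl

lemma epsm_lin (a b : K) (c : Fin 4 → K) : epsm K a b (lin K c) =
    c 0 • xx K 0 + c 1 • xx K 1 - c 2 • (a • xx K 0 + b • xx K 1) + c 3 • xx K 3 := by
  rw [lin_apply]
  simp only [smul_def', map_add, map_mul, epsm_xx0, epsm_xx1, epsm_xx2, epsm_xx3, epsm_alg]
  ring

lemma sub_epsm (a b : K) (r : RR K) :
    r - epsm K a b r ∈ Ideal.span {xx K 2 + (a • xx K 0 + b • xx K 1)} := by
  obtain ⟨p, rfl⟩ := Ideal.Quotient.mk_surjective r
  induction p using MvPolynomial.induction_on with
  | C k =>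
    have : Ideal.Quotient.mk (sqIdeal K) (C k) = algebraMap K (RR K) k := rfl
    rw [this, epsm_alg, sub_self]
    exact Ideal.zero_mem _
  | add p q hp hq =>
    rw [map_add, map_add]
    have := Ideal.add_mem _ hp hq
    convert this using 1
    ring
  | mul_X p i hp =>
    rw [map_mul, map_mul]
    have e : Ideal.Quotient.mk (sqIdeal K) (X i) = xx K i := rfl
    rw [e]
    have h2 : xx K i - epsm K a b (xx K i) ∈
        Ideal.span {xx K 2 + (a • xx K 0 + b • xx K 1)} := by
      fin_cases i
      · simp [epsm_xx0]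
      · simp [epsm_xx1]
      · simp only [Fin.reduceFinMk, epsm_xx2, sub_neg_eq_add]
        exact Ideal.subset_span rfl
      · simp [epsm_xx3]
    have h3 := Ideal.add_mem _ (Ideal.mul_mem_right (xx K i) _ hp)
      (Ideal.mul_mem_left _ (epsm K a b (Ideal.Quotient.mk (sqIdeal K) p)) h2)
    convert h3 using 1
    ring

/-- the positive part at the level of `x, y` -/
lemma level_zero (U : Submodule K (Fin 4 → K)) (hU : ∀ c ∈ U, c 2 = 0 ∧ c 3 = 0)
    (L : Set (RR K)) (hL : ∀ c, lin K c ∈ L) :
    Nonempty (CycRes L (II K U)) ∧ ∃ t : RR K, ∀ r, r ∈ II K U ↔ t * r = 0 := by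
  have h0L : (0 : RR K) ∈ L := by
    have := hL 0
    rwa [map_zero] at this
  by_cases hbot : ∀ c ∈ U, c = 0
  · have e : II K U = ⊥ := by
      unfold II
      rw [Ideal.span_eq_bot]
      rintro _ ⟨c, hc, rfl⟩
      rw [hbot c hc, map_zero]
    rw [e]
    refine ⟨⟨cycBot L⟩, 1, fun r => ?_⟩
    rw [one_mul, Ideal.mem_bot]
  push Not at hbot
  obtain ⟨c, hc, hc0⟩ := hbot
  have hcl : lin K c = c 0 • xx K 0 + c 1 • xx K 1 := by
    rw [lin_apply, (hU c hc).1, (hU c hc).2]
    simp
  have hab : c 0 ≠ 0 ∨ c 1 ≠ 0 := by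
    by_contra h
    push Not at h
    apply hc0
    funext i
    fin_cases i
    · exact h.1
    · exact h.2
    · exact (hU c hc).1
    · exact (hU c hc).2
  have hab' : c 0 ≠ 0 ∨ -c 1 ≠ 0 := by simpa using hab
  by_cases hspan : ∀ d ∈ U, ∃ k : K, d = k • c
  · have e : II K U = Ideal.span {lin K c} := by
      apply le_antisymm
      · unfold II
        rw [Ideal.span_le]
        rintro _ ⟨d, hd, rfl⟩
        obtain ⟨k, rfl⟩ := hspan d hd
        rw [map_smul, smul_def']
        exact Ideal.mul_mem_left _ _ (Ideal.subset_span rfl)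
      · rw [Ideal.span_le, Set.singleton_subset_iff]
        exact lin_mem_II K hc
    have hl' : c 0 • xx K 0 + (-c 1) • xx K 1 = lin K ![c 0, -c 1, 0, 0] := by
      rw [lin_apply]
      simp
    refine ⟨⟨?_⟩, c 0 • xx K 0 + (-c 1) • xx K 1, fun r => ?_⟩
    · rw [e]
      refine cycPeriodic L (l' := c 0 • xx K 0 + (-c 1) • xx K 1) (hL c) ?_ ?_ ?_
      · rw [hl']
        exact hL _
      · intro r
        rw [hcl]
        exact ann_l K _ _ hab r
      · intro r
        rw [hcl]
        have := ann_l K _ _ hab' r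
        rwa [neg_neg] at this
    · rw [e, Ideal.mem_span_singleton', hcl]
      have := ann_l K _ _ hab' r
      rw [neg_neg] at this
      rw [this]
      constructor
      · rintro ⟨s, rfl⟩
        exact ⟨s, mul_comm _ _⟩
      · rintro ⟨s, rfl⟩
        exact ⟨s, mul_comm _ _⟩
  push Not at hspan
  obtain ⟨d, hd, hd'⟩ := hspan
  have hdl : lin K d = d 0 • xx K 0 + d 1 • xx K 1 := by
    rw [lin_apply, (hU d hd).1, (hU d hd).2]
    simp
  have hΔ : c 0 * d 1 - c 1 * d 0 ≠ 0 := by
    intro hΔ
    rcases hab with h | h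
    · apply hd' (d 0 / c 0)
      funext i
      fin_cases i
      · simp [h]
      · simp only [Fin.mk_one, Pi.smul_apply, smul_eq_mul]
        field_simp
        linear_combination hΔ
      · simp [(hU c hc).1, (hU d hd).1]
      · simp [(hU c hc).2, (hU d hd).2]
    · apply hd' (d 1 / c 1)
      funext i
      fin_cases i
      · simp only [Fin.zero_eta, Pi.smul_apply, smul_eq_mul]
        field_simp
        linear_combination -hΔ
      · simp [h]
      · simp [(hU c hc).1, (hU d hd).1]
      · simp [(hU c hc).2, (hU d hd).2]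
  have hΔi : algebraMap K (RR K) (c 0 * d 1 - c 1 * d 0)⁻¹ *
      (algebraMap K (RR K) (c 0) * algebraMap K (RR K) (d 1) -
        algebraMap K (RR K) (c 1) * algebraMap K (RR K) (d 0)) = 1 := by
    rw [← map_mul, ← map_mul, ← map_sub, ← map_mul, inv_mul_cancel₀ hΔ, map_one]
  have hxU : xx K 0 = lin K ((c 0 * d 1 - c 1 * d 0)⁻¹ • (d 1 • c - c 1 • d)) := by
    rw [map_smul, map_sub, map_smul, map_smul, hcl, hdl]
    simp only [smul_def']
    linear_combination (-(xx K 0)) * hΔi
  have hyU : xx K 1 = lin K ((c 0 * d 1 - c 1 * d 0)⁻¹ • (c 0 • d - d 0 • c)) := by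
    rw [map_smul, map_sub, map_smul, map_smul, hcl, hdl]
    simp only [smul_def']
    linear_combination (-(xx K 1)) * hΔi
  have e : II K U = Ideal.span {xx K 0, xx K 1} := by
    apply le_antisymm
    · unfold II
      rw [Ideal.span_le]
      rintro _ ⟨f, hf, rfl⟩
      have hfl : lin K f = f 0 • xx K 0 + f 1 • xx K 1 := by
        rw [lin_apply, (hU f hf).1, (hU f hf).2]
        simp
      rw [hfl, smul_def', smul_def']
      exact Ideal.add_mem _ (Ideal.mul_mem_left _ _ (Ideal.subset_span (by simp)))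
        (Ideal.mul_mem_left _ _ (Ideal.subset_span (by simp)))
    · rw [Ideal.span_le]
      rintro _ (rfl | rfl)
      · rw [hxU]
        exact lin_mem_II K (U.smul_mem _ (U.sub_mem (U.smul_mem _ hc) (U.smul_mem _ hd)))
      · rw [hyU]
        exact lin_mem_II K (U.smul_mem _ (U.sub_mem (U.smul_mem _ hd) (U.smul_mem _ hc)))
  have hx : ∀ r, xx K 0 * r = 0 ↔ ∃ s, r = xx K 0 * s := by
    intro r
    have := ann_l K 1 0 (Or.inl one_ne_zero) r
    simpa using this
  refine ⟨⟨?_⟩, xx K 0 * xx K 1, fun r => ?_⟩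
  · rw [e]
    refine cycDouble L ?_ ?_ ?_ h0L hx (sq1 K) ?_
    · rw [hxU]; exact hL _
    · rw [hyU]; exact hL _
    · rw [hyU, ← map_neg]; exact hL _
    · intro r s hrs
      rw [← ann_xy]
      linear_combination (xx K 0) * hrs + s * sq0 K
  · rw [e, Ideal.mem_span_pair, ann_xy]
    constructor
    · rintro ⟨a, b, rfl⟩
      exact ⟨a, b, by ring⟩
    · rintro ⟨a, b, rfl⟩
      exact ⟨a, b, by ring⟩

/-- the part of a space with vanishing last two coordinates -/
def low (U : Submodule K (Fin 4 → K)) : Submodule K (Fin 4 → K) where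
  carrier := {c | c ∈ U ∧ c 2 = 0 ∧ c 3 = 0}
  add_mem' := by
    rintro a b ⟨ha, ha2, ha3⟩ ⟨hb, hb2, hb3⟩
    exact ⟨U.add_mem ha hb, by simp [ha2, hb2], by simp [ha3, hb3]⟩
  zero_mem' := ⟨U.zero_mem, rfl, rfl⟩
  smul_mem' := by
    rintro k a ⟨ha, ha2, ha3⟩
    exact ⟨U.smul_mem k ha, by simp [ha2], by simp [ha3]⟩

lemma II_eq_sup {U U' : Submodule K (Fin 4 → K)} (h : U' ≤ U) {c : Fin 4 → K} (hc : c ∈ U)
    (hs : ∀ e ∈ U, ∃ k : K, e - k • c ∈ U') : II K U = II K U' ⊔ Ideal.span {lin K c} := by
  apply le_antisymm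
  · unfold II
    rw [Ideal.span_le]
    rintro _ ⟨e, he, rfl⟩
    obtain ⟨k, hk⟩ := hs e he
    have : lin K e = lin K (e - k • c) + algebraMap K (RR K) k * lin K c := by
      rw [map_sub, map_smul, smul_def']
      ring
    rw [this]
    exact Ideal.add_mem _ (Ideal.mem_sup_left (lin_mem_II K hk))
      (Ideal.mem_sup_right (Ideal.mul_mem_left _ _ (Ideal.subset_span rfl)))
  · rw [sup_le_iff]
    constructor
    · unfold II
      rw [Ideal.span_le]
      rintro _ ⟨e, he, rfl⟩
      exact lin_mem_II K (h he)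
    · rw [Ideal.span_le, Set.singleton_subset_iff]
      exact lin_mem_II K hc

/-- every ideal of linear forms has a linear resolution -/
theorem all_linear (U : Submodule K (Fin 4 → K)) (L : Set (RR K)) (hL : ∀ c, lin K c ∈ L) :
    Nonempty (CycRes L (II K U)) := by
  have h0L : (0 : RR K) ∈ L := by
    have := hL 0
    rwa [map_zero] at this
  have hlow := level_zero K (low K U) (fun c hc => hc.2) L hL
  obtain ⟨⟨F0⟩, t, ht⟩ := hlow
  have hlowle : low K U ≤ U := fun c hc => hc.1
  have hreg0 : ∀ c : Fin 4 → K, (c 2 ≠ 0 ∨ c 3 ≠ 0) → ∀ r, lin K c * r ∈ II K (low K U) →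
      r ∈ II K (low K U) := by
    intro c hc r hr
    rw [ht] at hr ⊢
    exact lin_nzd K c hc _ (by rw [← hr]; ring)
  have hone : ∀ c ∈ U, (c 2 ≠ 0 ∨ c 3 ≠ 0) → (∀ e ∈ U, ∃ k : K, e - k • c ∈ low K U) →
      Nonempty (CycRes L (II K U)) := by
    intro c hc hc' hs
    rw [II_eq_sup K hlowle hc hs]
    refine ⟨cycCone L h0L F0 (hL c) ?_ (hreg0 c hc')⟩
    rw [← map_neg]
    exact hL _
  by_cases h3 : ∃ d ∈ U, d 3 ≠ 0
  · obtain ⟨d, hd, hd3⟩ := h3
    by_cases h2 : ∃ c ∈ U, c 3 = 0 ∧ c 2 ≠ 0
    · obtain ⟨c, hc, hc3, hc2⟩ := h2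
      -- normalise
      let c' : Fin 4 → K := (c 2)⁻¹ • c
      have hc' : c' ∈ U := U.smul_mem _ hc
      have hc'2 : c' 2 = 1 := by simp [c', hc2]
      have hc'3 : c' 3 = 0 := by simp [c', hc3]
      let d' : Fin 4 → K := (d 3)⁻¹ • (d - d 2 • c')
      have hd' : d' ∈ U := U.smul_mem _ (U.sub_mem hd (U.smul_mem _ hc'))
      have hd'3 : d' 3 = 1 := by simp [d', hc'3, hd3]
      have hd'2 : d' 2 = 0 := by simp [d', hc'2]
      -- intermediate space
      let U1 : Submodule K (Fin 4 → K) := low K U ⊔ Submodule.span K {c'}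
      have hU1le : U1 ≤ U := sup_le hlowle (by
        rw [Submodule.span_le, Set.singleton_subset_iff]; exact hc')
      have hc'1 : c' ∈ U1 := Submodule.mem_sup_right (Submodule.subset_span rfl)
      have hs1 : ∀ e ∈ U1, ∃ k : K, e - k • c' ∈ low K U := by
        intro e he
        obtain ⟨a, ha, b, hb, rfl⟩ := Submodule.mem_sup.mp he
        obtain ⟨k, rfl⟩ := Submodule.mem_span_singleton.mp hb
        exact ⟨k, by simpa using ha⟩
      have hs2 : ∀ e ∈ U, ∃ k : K, e - k • d' ∈ U1 := by
        intro e he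
        refine ⟨e 3, Submodule.mem_sup.mpr ⟨e - e 3 • d' - e 2 • c', ?_, e 2 • c', ?_, by abel⟩⟩
        · refine ⟨U.sub_mem (U.sub_mem he (U.smul_mem _ hd')) (U.smul_mem _ hc'), ?_, ?_⟩
          · simp [hd'2, hc'2]
          · simp [hd'3, hc'3]
        · exact Submodule.smul_mem _ _ (Submodule.subset_span rfl)
      have e1 : II K U1 = II K (low K U) ⊔ Ideal.span {lin K c'} :=
        II_eq_sup K le_sup_left hc'1 hs1
      have e2 : II K U = II K U1 ⊔ Ideal.span {lin K d'} :=
        II_eq_sup K hU1le hd' hs2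
      have hneg : ∀ c, -lin K c ∈ L := by
        intro c
        rw [← map_neg]
        exact hL _
      have F1 : CycRes L (II K U1) := by
        rw [e1]
        exact cycCone L h0L F0 (hL c') (hneg c') (hreg0 c' (Or.inl (by rw [hc'2]; exact one_ne_zero)))
      rw [e2]
      refine ⟨cycCone L h0L F1 (hL d') (hneg d') ?_⟩
      intro r hr
      rw [e1] at hr ⊢
      -- apply the substitution
      have hcl : lin K c' = xx K 2 + (c' 0 • xx K 0 + c' 1 • xx K 1) := by
        rw [lin_apply, hc'2, hc'3, one_smul, zero_smul]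
        ring
      have hmap : ∀ s ∈ II K (low K U) ⊔ Ideal.span {lin K c'},
          epsm K (c' 0) (c' 1) s ∈ II K (low K U) := by
        intro s hs
        obtain ⟨a, ha, b, hb, rfl⟩ := Submodule.mem_sup.mp hs
        rw [map_add]
        apply Ideal.add_mem
        · have : II K (low K U) ≤ (II K (low K U)).comap (epsm K (c' 0) (c' 1)) := by
            conv_lhs => unfold II
            rw [Ideal.span_le]
            rintro _ ⟨e, he, rfl⟩
            show epsm K (c' 0) (c' 1) (lin K e) ∈ II K (low K U)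
            have e3 : epsm K (c' 0) (c' 1) (lin K e) = lin K e := by
              rw [epsm_lin, lin_apply, he.2.1, he.2.2]
              simp
            rw [e3]
            exact lin_mem_II K he
          exact this ha
        · obtain ⟨s, rfl⟩ := Ideal.mem_span_singleton'.mp hb
          have : epsm K (c' 0) (c' 1) (lin K c') = 0 := by
            rw [epsm_lin, hc'2, hc'3, one_smul, zero_smul]
            ring
          rw [map_mul, this, mul_zero]
          exact Ideal.zero_mem _
      have h4 := hmap _ hr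
      rw [map_mul] at h4
      have h5 : epsm K (c' 0) (c' 1) (lin K d') = lin K d' := by
        rw [epsm_lin, lin_apply, hd'2]
        simp
      rw [h5] at h4
      have h6 := hreg0 d' (Or.inr (by rw [hd'3]; exact one_ne_zero)) _ h4
      have h7 := sub_epsm K (c' 0) (c' 1) r
      rw [← hcl] at h7
      have : r = epsm K (c' 0) (c' 1) r + (r - epsm K (c' 0) (c' 1) r) := by ring
      rw [this]
      exact Ideal.add_mem _ (Ideal.mem_sup_left h6) (Ideal.mem_sup_right h7)
    · push Not at h2
      apply hone d hd (Or.inr hd3)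
      intro e he
      refine ⟨e 3 / d 3, U.sub_mem he (U.smul_mem _ hd), ?_, ?_⟩
      · apply h2 _ (U.sub_mem he (U.smul_mem _ hd))
        simp [hd3]
      · simp [hd3]
  · push Not at h3
    by_cases h2 : ∃ c ∈ U, c 2 ≠ 0
    · obtain ⟨c, hc, hc2⟩ := h2
      apply hone c hc (Or.inl hc2)
      intro e he
      refine ⟨e 2 / c 2, U.sub_mem he (U.smul_mem _ hc), ?_, ?_⟩
      · simp [hc2]
      · exact h3 _ (U.sub_mem he (U.smul_mem _ hc))
    · push Not at h2
      exact (level_zero K U (fun c hc => ⟨h2 c hc, h3 c hc⟩) L hL).1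

end Pos

end Pool.Agent.UnivKoszul
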