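import Pool.Agent.UnivKoszul.Pos

open MvPolynomial

namespace Pool.Agent.UnivKoszul

universe u

section Pos2

variable (K : Type u) [Field K]

lemma piece_one_eq : piece (sqIdeal K) 1 = Submodule.span K (Set.range (xx K)) := by
  unfold piece
  rw [homogeneousSubmodule_one_eq_span_X, Submodule.map_span, ← Set.range_comp]
  rfl

lemma mem_piece_one_iff (r : RR K) : r ∈ piece (sqIdeal K) 1 ↔ ∃ c, r = lin K c := by
  rw [piece_one_eq, Submodule.mem_span_range_iff_exists_fun]
  apply exists_congr
  intro c
  rw [Fin.sum_univ_four, lin_apply]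
  exact eq_comm

/-- a linear ideal comes from a space of linear forms -/
lemma linear_ideal {I : Ideal (RR K)} (h : IsLinearIdeal (sqIdeal K) I) :
    ∃ U : Submodule K (Fin 4 → K), I = II K U := by
  obtain ⟨V, hV, rfl⟩ := h
  refine ⟨(Submodule.span K V).comap (lin K), ?_⟩
  apply le_antisymm
  · rw [Ideal.span_le]
    intro v hv
    obtain ⟨c, rfl⟩ := (mem_piece_one_iff K v).mp (hV hv)
    exact lin_mem_II K (Submodule.subset_span hv)
  · unfold II
    rw [Ideal.span_le]
    rintro _ ⟨c, hc, rfl⟩
    have hc' : lin K c ∈ Submodule.span K V := hc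
    have : Submodule.span K V ≤ (Ideal.span V).restrictScalars K := by
      rw [Submodule.span_le]
      intro v hv
      exact Ideal.subset_span hv
    exact this hc'

/-- from a resolution of the cyclic module to a graded resolution of the ideal -/
lemma reg_of_cyc {n : ℕ} {J : Ideal (MvPolynomial (Fin n) K)}
    {I : Ideal (MvPolynomial (Fin n) K ⧸ J)}
    (F : CycRes (piece J 1 : Set (MvPolynomial (Fin n) K ⧸ J)) I) : RegLE J I 1 := by
  refine ⟨{ ι := fun i => F.κ (i + 1)
            fin := fun i => F.fin (i + 1)
            deg := fun i _ => i + 1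
            gen := fun c => F.D 0 default c
            gen_mem := fun c => F.mem 0 default c
            span_gen := ?_
            mat := fun i => F.D (i + 1)
            mat_mem := ?_
            exact_zero := ?_
            exact_succ := fun i v => F.exact (i + 1) v }, ?_⟩
  · apply le_antisymm
    · rw [Ideal.span_le]
      rintro _ ⟨c, rfl⟩
      classical
      refine (F.range0 _).mpr ⟨fun d => if d = c then 1 else 0, ?_⟩
      simp
    · intro a ha
      obtain ⟨v, rfl⟩ := (F.range0 a).mp ha
      apply Ideal.sum_mem
      intro c _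
      exact Ideal.mul_mem_right _ _ (Ideal.subset_span ⟨c, rfl⟩)
  · intro i r c
    right
    refine ⟨Nat.le_succ _, ?_⟩
    have : i + 1 + 1 - (i + 1) = 1 := by omega
    rw [this]
    exact F.mem (i + 1) r c
  · intro v
    rw [← F.exact 0 v]
    constructor
    · intro h r
      rw [Subsingleton.elim r default, ← h]
      apply Finset.sum_congr rfl
      intro c _
      ring
    · intro h
      rw [← h default]
      apply Finset.sum_congr rfl
      intro c _
      ring
  · intro i j
    exact le_rfl

lemma mem_sqIdeal_iff (p : MvPolynomial (Fin 4) K) :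
    p ∈ sqIdeal K ↔ ∀ m ∈ p.support, 2 ≤ m 0 ∨ 2 ≤ m 1 := by
  have e : sqIdeal K = Ideal.span ((fun s => monomial s (1 : K)) ''
      {Finsupp.single (0 : Fin 4) 2, Finsupp.single (1 : Fin 4) 2}) := by
    unfold sqIdeal
    rw [Set.image_pair, X_pow_eq_monomial, X_pow_eq_monomial]
  rw [e, mem_ideal_span_monomial_image]
  apply forall₂_congr
  intro m _
  simp

lemma standard_graded : IsStandardGraded (sqIdeal K) where
  homogeneous := by
    intro p hp i
    rw [mem_sqIdeal_iff] at hp ⊢
    intro m hm
    rw [support_homogeneousComponent] at hm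
    exact hp m (Finset.mem_filter.mp hm).1
  le_sq := by
    unfold sqIdeal
    rw [Ideal.span_le]
    rintro _ (rfl | rfl)
    · exact Ideal.pow_mem_pow (Ideal.subset_span (Set.mem_range_self _)) 2
    · exact Ideal.pow_mem_pow (Ideal.subset_span (Set.mem_range_self _)) 2

theorem universally_koszul : IsUniversallyKoszul (sqIdeal K) := by
  refine ⟨standard_graded K, fun I hI => ?_⟩
  obtain ⟨U, rfl⟩ := linear_ideal K hI
  obtain ⟨F⟩ := all_linear K U (piece (sqIdeal K) 1) (fun c => (mem_piece_one_iff K _).mpr ⟨c, rfl⟩)
  exact reg_of_cyc K F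

end Pos2

end Pool.Agent.UnivKoszul
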