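import Mathlib

namespace Pool.Agent.UnivKoszul

universe u

/-- elements `a + b x + c y + d x y` with `x^2 = y^2 = 0` -/
@[ext] structure Quad (A : Type u) where
  a : A
  b : A
  c : A
  d : A

namespace Quad

variable {A : Type u} [CommRing A]

instance : Zero (Quad A) := ⟨⟨0, 0, 0, 0⟩⟩
instance : One (Quad A) := ⟨⟨1, 0, 0, 0⟩⟩
instance : Add (Quad A) := ⟨fun p q => ⟨p.a + q.a, p.b + q.b, p.c + q.c, p.d + q.d⟩⟩
instance : Neg (Quad A) := ⟨fun p => ⟨-p.a, -p.b, -p.c, -p.d⟩⟩
instance : Sub (Quad A) := ⟨fun p q => ⟨p.a - q.a, p.b - q.b, p.c - q.c, p.d - q.d⟩⟩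
instance : Mul (Quad A) := ⟨fun p q => ⟨p.a * q.a, p.a * q.b + p.b * q.a, p.a * q.c + p.c * q.a,
  p.a * q.d + p.d * q.a + p.b * q.c + p.c * q.b⟩⟩

@[simp] lemma zero_a : (0 : Quad A).a = 0 := rfl
@[simp] lemma zero_b : (0 : Quad A).b = 0 := rfl
@[simp] lemma zero_c : (0 : Quad A).c = 0 := rfl
@[simp] lemma zero_d : (0 : Quad A).d = 0 := rfl
@[simp] lemma one_a : (1 : Quad A).a = 1 := rfl
@[simp] lemma one_b : (1 : Quad A).b = 0 := rfl
@[simp] lemma one_c : (1 : Quad A).c = 0 := rfl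
@[simp] lemma one_d : (1 : Quad A).d = 0 := rfl
@[simp] lemma add_a (p q : Quad A) : (p + q).a = p.a + q.a := rfl
@[simp] lemma add_b (p q : Quad A) : (p + q).b = p.b + q.b := rfl
@[simp] lemma add_c (p q : Quad A) : (p + q).c = p.c + q.c := rfl
@[simp] lemma add_d (p q : Quad A) : (p + q).d = p.d + q.d := rfl
@[simp] lemma neg_a (p : Quad A) : (-p).a = -p.a := rfl
@[simp] lemma neg_b (p : Quad A) : (-p).b = -p.b := rfl
@[simp] lemma neg_c (p : Quad A) : (-p).c = -p.c := rfl
@[simp] lemma neg_d (p : Quad A) : (-p).d = -p.d := rfl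
@[simp] lemma sub_a (p q : Quad A) : (p - q).a = p.a - q.a := rfl
@[simp] lemma sub_b (p q : Quad A) : (p - q).b = p.b - q.b := rfl
@[simp] lemma sub_c (p q : Quad A) : (p - q).c = p.c - q.c := rfl
@[simp] lemma sub_d (p q : Quad A) : (p - q).d = p.d - q.d := rfl
@[simp] lemma mul_a (p q : Quad A) : (p * q).a = p.a * q.a := rfl
@[simp] lemma mul_b (p q : Quad A) : (p * q).b = p.a * q.b + p.b * q.a := rfl
@[simp] lemma mul_c (p q : Quad A) : (p * q).c = p.a * q.c + p.c * q.a := rfl
@[simp] lemma mul_d (p q : Quad A) :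
    (p * q).d = p.a * q.d + p.d * q.a + p.b * q.c + p.c * q.b := rfl

instance : CommRing (Quad A) where
  add := (· + ·)
  zero := 0
  neg := fun p => -p
  sub := (· - ·)
  mul := (· * ·)
  one := 1
  add_assoc p q r := by ext <;> simp <;> ring
  zero_add p := by ext <;> simp
  add_zero p := by ext <;> simp
  add_comm p q := by ext <;> simp <;> ring
  left_distrib p q r := by ext <;> simp <;> ring
  right_distrib p q r := by ext <;> simp <;> ring
  zero_mul p := by ext <;> simp
  mul_zero p := by ext <;> simp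
  mul_assoc p q r := by ext <;> simp <;> ring
  one_mul p := by ext <;> simp
  mul_one p := by ext <;> simp
  neg_add_cancel p := by ext <;> simp
  mul_comm p q := by ext <;> simp <;> ring
  sub_eq_add_neg p q := by ext <;> simp <;> ring
  nsmul := nsmulRec
  zsmul := zsmulRec

/-- inclusion of coefficients -/
def inc : A →+* Quad A where
  toFun a := ⟨a, 0, 0, 0⟩
  map_one' := rfl
  map_zero' := rfl
  map_mul' p q := by ext <;> simp
  map_add' p q := by ext <;> simp

@[simp] lemma inc_a (p : A) : (inc p).a = p := rfl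
@[simp] lemma inc_b (p : A) : (inc p).b = 0 := rfl
@[simp] lemma inc_c (p : A) : (inc p).c = 0 := rfl
@[simp] lemma inc_d (p : A) : (inc p).d = 0 := rfl

end Quad

end Pool.Agent.UnivKoszul
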