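import Pool.Agent.UnivKoszul.Cyc
import Pool.Agent.UnivKoszul.Quad

open MvPolynomial

namespace Pool.Agent.UnivKoszul

universe u

section Ring

variable (K : Type u) [Field K]

/-- the ideal generated by the squares of the first two variables -/
noncomputable def sqIdeal : Ideal (MvPolynomial (Fin 4) K) := Ideal.span {X 0 ^ 2, X 1 ^ 2}

/-- the ring -/
abbrev RR : Type u := MvPolynomial (Fin 4) K ⧸ sqIdeal K

/-- coefficient ring -/
abbrev AA : Type u := Polynomial (Polynomial K)

/-- the four images of the variables -/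
noncomputable def vB : Fin 4 → Quad (AA K) :=
  ![⟨0, 1, 0, 0⟩, ⟨0, 0, 1, 0⟩, Quad.inc (Polynomial.C Polynomial.X),
    Quad.inc Polynomial.X]

/-- polynomial level map -/
noncomputable def psi0 : MvPolynomial (Fin 4) K →+* Quad (AA K) :=
  eval₂Hom (Quad.inc.comp (Polynomial.C.comp Polynomial.C)) (vB K)

lemma psi0_zero : ∀ p ∈ sqIdeal K, psi0 K p = 0 := by
  intro p hp
  have : sqIdeal K ≤ RingHom.ker (psi0 K) := by
    unfold sqIdeal
    rw [Ideal.span_le]
    rintro q (rfl | rfl)
    · simp only [SetLike.mem_coe, RingHom.mem_ker, psi0, coe_eval₂Hom, eval₂_pow, eval₂_X, vB,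
        Matrix.cons_val_zero]
      ext1 <;> simp [pow_two]
    · simp only [SetLike.mem_coe, RingHom.mem_ker, psi0, coe_eval₂Hom, eval₂_pow, eval₂_X, vB,
        Matrix.cons_val_one, Matrix.cons_val_zero]
      ext1 <;> simp [pow_two]
  exact this hp

/-- coordinates map -/
noncomputable def psi : RR K →+* Quad (AA K) := Ideal.Quotient.lift _ (psi0 K) (psi0_zero K)

/-- the variables in the ring -/
noncomputable def xx (i : Fin 4) : RR K := Ideal.Quotient.mk _ (X i)

/-- coefficients in the ring -/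
noncomputable def cc : AA K →+* RR K :=
  Polynomial.eval₂RingHom (Polynomial.eval₂RingHom (algebraMap K (RR K)) (xx K 2)) (xx K 3)

@[simp] lemma psi_xx0 : psi K (xx K 0) = ⟨0, 1, 0, 0⟩ := by
  simp [psi, xx, psi0, vB]

@[simp] lemma psi_xx1 : psi K (xx K 1) = ⟨0, 0, 1, 0⟩ := by
  simp [psi, xx, psi0, vB]

@[simp] lemma psi_xx2 : psi K (xx K 2) = Quad.inc (Polynomial.C Polynomial.X : AA K) := by
  simp [psi, xx, psi0, vB]

@[simp] lemma psi_xx3 : psi K (xx K 3) = Quad.inc Polynomial.X := by
  simp [psi, xx, psi0, vB]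

@[simp] lemma psi_alg (a : K) : psi K (algebraMap K (RR K) a) =
    Quad.inc (Polynomial.C (Polynomial.C a)) := by
  have : algebraMap K (RR K) a = Ideal.Quotient.mk _ (C a) := rfl
  rw [this]
  simp [psi, psi0]

@[simp] lemma cc_X : cc K Polynomial.X = xx K 3 := by simp [cc]
@[simp] lemma cc_CX : cc K (Polynomial.C Polynomial.X) = xx K 2 := by simp [cc]
@[simp] lemma cc_CC (a : K) : cc K (Polynomial.C (Polynomial.C a)) = algebraMap K (RR K) a := by
  simp [cc]

@[simp] lemma psi_cc (a : AA K) : psi K (cc K a) = Quad.inc a := by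
  have : (psi K).comp (cc K) = Quad.inc := by
    apply Polynomial.ringHom_ext'
    · apply Polynomial.ringHom_ext'
      · ext1 a
        simp
      · simp
    · simp
  exact congrFun (congrArg DFunLike.coe this) a

lemma sq0 : xx K 0 * xx K 0 = 0 := by
  have : xx K 0 * xx K 0 = Ideal.Quotient.mk (sqIdeal K) (X 0 ^ 2) := by
    rw [pow_two, map_mul]; rfl
  rw [this, Ideal.Quotient.eq_zero_iff_mem]
  exact Ideal.subset_span (by simp)

lemma sq1 : xx K 1 * xx K 1 = 0 := by
  have : xx K 1 * xx K 1 = Ideal.Quotient.mk (sqIdeal K) (X 1 ^ 2) := by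
    rw [pow_two, map_mul]; rfl
  rw [this, Ideal.Quotient.eq_zero_iff_mem]
  exact Ideal.subset_span (by simp)

/-- inverse of the coordinates map -/
noncomputable def phi (q : Quad (AA K)) : RR K :=
  cc K q.a + cc K q.b * xx K 0 + cc K q.c * xx K 1 + cc K q.d * (xx K 0 * xx K 1)

lemma phi_psi (r : RR K) : phi K (psi K r) = r := by
  obtain ⟨p, rfl⟩ := Ideal.Quotient.mk_surjective r
  induction p using MvPolynomial.induction_on with
  | C a =>
    have : Ideal.Quotient.mk (sqIdeal K) (C a) = algebraMap K (RR K) a := rfl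
    rw [this]
    simp [phi]
  | add p q hp hq =>
    rw [map_add, map_add]
    conv_rhs => rw [← hp, ← hq]
    simp only [phi, Quad.add_a, Quad.add_b, Quad.add_c, Quad.add_d, map_add]
    ring
  | mul_X p i hp =>
    rw [map_mul]
    have e : Ideal.Quotient.mk (sqIdeal K) (X i) = xx K i := rfl
    rw [e]
    conv_rhs => rw [← hp]
    have h0 := sq0 K
    have h1 := sq1 K
    fin_cases i
    · simp only [Fin.zero_eta, map_mul, psi_xx0, phi, Quad.mul_a, Quad.mul_b, Quad.mul_c,
        Quad.mul_d, map_add, mul_zero, mul_one, map_zero, zero_add, add_zero, zero_mul]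
      linear_combination (-(cc K (psi K (Ideal.Quotient.mk (sqIdeal K) p)).b)
        - cc K (psi K (Ideal.Quotient.mk (sqIdeal K) p)).d * xx K 1) * h0
    · simp only [Fin.mk_one, map_mul, psi_xx1, phi, Quad.mul_a, Quad.mul_b, Quad.mul_c,
        Quad.mul_d, map_add, mul_zero, mul_one, map_zero, zero_add, add_zero, zero_mul]
      linear_combination (-(cc K (psi K (Ideal.Quotient.mk (sqIdeal K) p)).c)
        - cc K (psi K (Ideal.Quotient.mk (sqIdeal K) p)).d * xx K 0) * h1
    · simp only [Fin.reduceFinMk, map_mul, psi_xx2, phi, Quad.mul_a, Quad.mul_b, Quad.mul_c,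
        Quad.mul_d, map_add, mul_zero, mul_one, map_zero, zero_add, add_zero, zero_mul,
        Quad.inc_a, Quad.inc_b, Quad.inc_c, Quad.inc_d, cc_CX]
      ring
    · simp only [Fin.reduceFinMk, map_mul, psi_xx3, phi, Quad.mul_a, Quad.mul_b, Quad.mul_c,
        Quad.mul_d, map_add, mul_zero, mul_one, map_zero, zero_add, add_zero, zero_mul,
        Quad.inc_a, Quad.inc_b, Quad.inc_c, Quad.inc_d, cc_X]
      ring

lemma psi_inj : Function.Injective (psi K) := by
  intro r s h
  rw [← phi_psi K r, ← phi_psi K s, h]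

end Ring

end Pool.Agent.UnivKoszul
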